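import Pool.Agent.Q43.Kn.Main

/-!
# MP_c675bc_co, Q1: disproof

The definitions are in `Pool.Agent.Q43.Kn.Struct`:
* `HG n` : sets of subsets of `Fin n` (hypergraphs);
* `IsUniform r H`, `IsKneser l H D`;
* `kappa H k l` : the number of `(k, l)`-Kneser colorings of `H`;
* `KC n r k l` : the maximum of `kappa H k l` over `r`-uniform `H` on `Fin n`;
* `HC C r` : the `(C, r)`-complete hypergraph.
-/

namespace Pool.Agent.Results.MP_c675bc_co.IntersectionSizes
open Q43.Kn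

/-- The statement of Q1. -/
def Conjecture : Prop :=
  ∀ k r l : ℕ, 5 ≤ k → l < r → r < 2 * l → ∃ n0 : ℕ, ∀ n, n0 < n →
    ∀ C : Finset (Finset (Fin n)), (∀ t ∈ C, t.card = l) → kappa (HC C r) k l = KC n r k l →
      C.card = (k + 2) / 3 ∧ ∀ t ∈ C, ∀ t' ∈ C, t ≠ t' → (t ∩ t').card = 2 * l - r - 1

/-- The general statement is false; and for `k = 24`, `l = 4`, `r = 5` every extremal hypergraph
on `n` vertices, `n` large, is `(C, 5)`-complete for a set `C` of eight `4`-sets, two of which do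
not meet in exactly `2 = 2 l - r - 1` vertices. -/
theorem result :
    (∃ N : ℕ, ∀ n, N ≤ n → ∀ H : HG n, IsUniform 5 H → kappa H 24 4 = KC n 5 24 4 →
      ∃ C : Finset (Finset (Fin n)), (∀ t ∈ C, t.card = 4) ∧ C.card = 8 ∧ H = HC C 5 ∧
        ∃ t ∈ C, ∃ t' ∈ C, t ≠ t' ∧ (t ∩ t').card ≠ 2) ∧
    ¬ Conjecture := by
  refine ⟨main, ?_⟩
  intro h
  obtain ⟨N, hN⟩ := main
  obtain ⟨n0, hn0⟩ := h 24 5 4 (by norm_num) (by norm_num) (by norm_num)
  obtain ⟨H, hU, hK⟩ := exists_KC (n := max N (n0 + 1)) (r := 5) (k := 24) (l := 4) (by norm_num)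
  obtain ⟨C, hC4, hC8, hHC, t, ht, t', ht', hne, hcard⟩ := hN _ (le_max_left _ _) H hU hK
  rw [hHC] at hK
  have h1 := (hn0 _ (lt_of_lt_of_le (Nat.lt_succ_self n0) (le_max_right _ _)) C hC4 hK).2
    t ht t' ht' hne
  exact hcard h1

end Pool.Agent.Results.MP_c675bc_co.IntersectionSizes
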